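import Pool.Agent.H84.S2.Tg

/-!
# MP_70ba79_ag, THEOREM S, part 2: finitely many lines which are minimal prime ideals (row MPR)
-/

set_option autoImplicit false

namespace Pool.Agent.H63.S2

open MvPolynomial SC
open Pool.Agent.H3.SF (Itg Bb BB Hm eu grd hes Sfc Crd Cnn Crf Prm nv)
open Pool.Agent.H84.SF
open Pool.Agent.H3.S2 Pool.Agent.H84.S2

theorem lns_inj {k σ : Type} [Field k] {s t : σ → k} (hs : s ≠ 0) (ht : t ≠ 0)
    (h : Lns s = Lns t) : ∃ μ : k, μ ≠ 0 ∧ s = μ • t := by
  obtain ⟨i, hi⟩ := Function.ne_iff.mp ht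
  have hi' : t i ≠ 0 := hi
  have key : ∀ j, t i * s j = t j * s i := by
    intro j
    have hm : (C (t i) * X j - C (t j) * X i : MvPolynomial σ k) ∈ Lns t := by
      intro μ
      rw [map_sub, map_mul, map_mul, eval_C, eval_C, eval_X, eval_X, Pi.smul_apply, Pi.smul_apply,
        smul_eq_mul, smul_eq_mul]
      ring
    rw [← h] at hm
    have h1 := hm 1
    rw [map_sub, map_mul, map_mul, eval_C, eval_C, eval_X, eval_X, one_smul] at h1
    exact sub_eq_zero.mp h1
  refine ⟨s i / t i, ?_, ?_⟩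
  · intro h0
    have hsi : s i = 0 := by
      rcases div_eq_zero_iff.mp h0 with h1 | h1
      · exact h1
      · exact absurd h1 hi'
    apply hs
    funext j
    have h2 := key j
    rw [hsi, mul_zero] at h2
    exact (mul_eq_zero.mp h2).resolve_left hi'
  · funext j
    rw [Pi.smul_apply, smul_eq_mul, div_mul_eq_mul_div, eq_div_iff hi']
    linear_combination key j

theorem pf_MPR : T_MPR := by
  intro k σ _ _ Q
  classical
  have hfin : Q.minimalPrimes.Finite := Ideal.finite_minimalPrimes_of_isNoetherianRing _ Q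
  set g : Ideal (MvPolynomial σ k) → (σ → k) := fun P =>
    if h : ∃ t : σ → k, t ≠ 0 ∧ Lns t = P then h.choose else 0 with hg
  refine ⟨hfin.toFinset.image g, ?_⟩
  intro s hs hmin
  have hex : ∃ t : σ → k, t ≠ 0 ∧ Lns t = Lns s := ⟨s, hs, rfl⟩
  refine ⟨g (Lns s), Finset.mem_image.mpr ⟨Lns s, hfin.mem_toFinset.mpr hmin, rfl⟩, ?_⟩
  have h1 : g (Lns s) = hex.choose := by
    rw [hg]
    exact dif_pos hex
  rw [h1]
  exact lns_inj hs hex.choose_spec.1 hex.choose_spec.2.symm

end Pool.Agent.H63.S2
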