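import Pool.Agent.H84.S2.Tg

/-!
# MP_70ba79_ag, THEOREM S, part 2: some linear form `u l` does not vanish at `s` (row UNZ)
-/

set_option autoImplicit false

namespace Pool.Agent.H63.S2

open MvPolynomial SC
open Pool.Agent.H3.SF (Itg Bb BB Hm eu grd hes Sfc Crd Cnn Crf Prm nv)
open Pool.Agent.H84.SF
open Pool.Agent.H3.S2 Pool.Agent.H84.S2

theorem eval_zero_of_homog {σ k : Type} [Field k] {p : MvPolynomial σ k} {n : ℕ}
    (hp : p.IsHomogeneous n) (hn : 0 < n) : eval (fun _ => (0 : k)) p = 0 := by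
  have h1 : eval (fun _ => (0 : k)) p = constantCoeff p := by
    rw [MvPolynomial.eval_zero']
  rw [h1, constantCoeff_eq]
  apply hp.coeff_eq_zero
  simp
  omega

theorem pf_UNZ (hHIE : T_HIE) : T_UNZ := by
  intro k F σ _ _ _ _ _ _ X u dd J j0 hS s hs hc
  choose U hU1 hU2 using hS.ulin
  by_contra hcon
  push Not at hcon
  have hz : ∀ l, eval s (U l) = 0 := fun l => hcon l (U l) (hU1 l) (hU2 l)
  apply hs
  funext i
  have hHm : Hm k (eu u dd) ((1 : ℕ) : ℤ) (X i) := by
    unfold Hm
    rw [hS.Xeu]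
    simp
  obtain ⟨N, c, hcH, heq⟩ := hHIE k F u dd hS.ddu (X i) 1 (hS.Xint i) hHm
  set f : MvPolynomial σ k := (MvPolynomial.X i) ^ N +
    ∑ j : Fin N, aeval U (c j) * (MvPolynomial.X i) ^ (j : ℕ) with hf
  have hcomp : ∀ p : MvPolynomial (Fin 3) k, aeval X (aeval U p) = aeval u p := by
    intro p
    have h1 : (aeval X).comp (aeval U : MvPolynomial (Fin 3) k →ₐ[k] MvPolynomial σ k) =
        (aeval u : MvPolynomial (Fin 3) k →ₐ[k] F) := by
      apply MvPolynomial.algHom_ext
      intro l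
      simp [hU2]
    exact DFunLike.congr_fun h1 p
  have hcomp2 : ∀ p : MvPolynomial (Fin 3) k, eval s (aeval U p) =
      eval (fun _ => (0 : k)) p := by
    intro p
    have h1 : (aeval s : MvPolynomial σ k →ₐ[k] k).comp
        (aeval U : MvPolynomial (Fin 3) k →ₐ[k] MvPolynomial σ k) =
        (aeval (fun _ => (0 : k)) : MvPolynomial (Fin 3) k →ₐ[k] k) := by
      apply MvPolynomial.algHom_ext
      intro l
      rw [AlgHom.comp_apply, aeval_X, aeval_X]
      exact hz l
    exact DFunLike.congr_fun h1 p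
  have h0 : aeval X f = 0 := by
    rw [hf, map_add, map_pow, map_sum, aeval_X]
    rw [← heq]
    congr 1
    refine Finset.sum_congr rfl fun j _ => ?_
    rw [map_mul, map_pow, aeval_X, hcomp]
  have h1 := hc.pt f h0
  rw [hf, map_add, map_pow, map_sum, eval_X] at h1
  have h2 : ∑ j : Fin N, eval s (aeval U (c j) * (MvPolynomial.X i) ^ (j : ℕ)) = 0 := by
    refine Finset.sum_eq_zero fun j _ => ?_
    rw [map_mul, hcomp2, eval_zero_of_homog (hcH j) (by have := j.isLt; omega), zero_mul]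
  rw [h2, add_zero] at h1
  exact eq_zero_of_pow_eq_zero h1

end Pool.Agent.H63.S2
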